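import Pool.Agent.W831.HI.Dec

set_option autoImplicit false
set_option linter.unusedSectionVars false

/-!
Every circuit `C` of a bridgeless graph: four even sets that cover every edge of `C` once and every
other edge twice, apart from the edges of an even set `F` without ends on `C`. (Adapted from
`Pool.Agent.W831.HI`.)
-/

open Finset Matrix

namespace Pool.Agent.W614.SC

open Pool.Agent.Helper347.Sab
open Pool.Agent.H164R2 (bd bd_split even_iff_castK zero_count two_edges sq_sum two0 solve bd_ind)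
open Pool.Agent.Helper998.Near (Rch join rch_symm)
open Pool.Agent.Helper879.ECD (IsFlow cn f2_add_self)
open Pool.Agent.W831.HI

variable {V E : Type} [Fintype V] [DecidableEq V] [Fintype E] [DecidableEq E]

theorem four_count (s a b d : Prop) [Decidable s] [Decidable a] [Decidable b]
    [Decidable d] (c1 : s → (d ↔ (¬ a ∧ ¬ b))) :
    ((s → (if d then 1 else 0) +
    (if (((s ∧ ¬ d) ∨ (d ∧ ¬ s)) ∧ ¬ a) ∨ (a ∧ ¬ ((s ∧ ¬ d) ∨ (d ∧ ¬ s))) then 1 else 0) +
    (if (((s ∧ ¬ d) ∨ (d ∧ ¬ s)) ∧ ¬ b) ∨ (b ∧ ¬ ((s ∧ ¬ d) ∨ (d ∧ ¬ s))) then 1 else 0) +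
    (if (((s ∧ ¬ d) ∨ (d ∧ ¬ s)) ∧ ¬ ((a ∧ ¬ b) ∨ (b ∧ ¬ a))) ∨
        (((a ∧ ¬ b) ∨ (b ∧ ¬ a)) ∧ ¬ ((s ∧ ¬ d) ∨ (d ∧ ¬ s))) then 1 else 0) = 1) ∧
    (¬ s → (a ∨ b) → (if d then 1 else 0) +
    (if (((s ∧ ¬ d) ∨ (d ∧ ¬ s)) ∧ ¬ a) ∨ (a ∧ ¬ ((s ∧ ¬ d) ∨ (d ∧ ¬ s))) then 1 else 0) +
    (if (((s ∧ ¬ d) ∨ (d ∧ ¬ s)) ∧ ¬ b) ∨ (b ∧ ¬ ((s ∧ ¬ d) ∨ (d ∧ ¬ s))) then 1 else 0) +
    (if (((s ∧ ¬ d) ∨ (d ∧ ¬ s)) ∧ ¬ ((a ∧ ¬ b) ∨ (b ∧ ¬ a))) ∨
        (((a ∧ ¬ b) ∨ (b ∧ ¬ a)) ∧ ¬ ((s ∧ ¬ d) ∨ (d ∧ ¬ s))) then 1 else 0) = 2) ∧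
    (¬ s → Even ((if d then 1 else 0) +
    (if (((s ∧ ¬ d) ∨ (d ∧ ¬ s)) ∧ ¬ a) ∨ (a ∧ ¬ ((s ∧ ¬ d) ∨ (d ∧ ¬ s))) then 1 else 0) +
    (if (((s ∧ ¬ d) ∨ (d ∧ ¬ s)) ∧ ¬ b) ∨ (b ∧ ¬ ((s ∧ ¬ d) ∨ (d ∧ ¬ s))) then 1 else 0) +
    (if (((s ∧ ¬ d) ∨ (d ∧ ¬ s)) ∧ ¬ ((a ∧ ¬ b) ∨ (b ∧ ¬ a))) ∨
        (((a ∧ ¬ b) ∨ (b ∧ ¬ a)) ∧ ¬ ((s ∧ ¬ d) ∨ (d ∧ ¬ s))) then 1 else 0)))) := by
  by_cases h2 : s <;> by_cases h3 : a <;> by_cases h4 : b <;>
    by_cases h5 : d <;> simp_all <;> decide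

/-- four sets from a flow and an even set tracing its zeros on `S` -/
theorem four {K : Type} [Field K] [Fintype K] [DecidableEq K] [CharP K 2]
    (G : MGraph V E) (S D F : Finset E) (hS : Ev G S) (hD : Ev G D)
    (p q : K →+ ZMod 2) (hpq : ∀ x, p x = 0 → q x = 0 → x = 0)
    (a : E → K) (ha : ∀ v, bd G a v = 0)
    (hz : ∀ e, e ∉ S → a e = 0 → e ∈ F) (hDS : ∀ e ∈ S, (e ∈ D ↔ a e = 0)) :
    ∃ X : Fin 4 → Finset E, (∀ i, Ev G (X i)) ∧
      (∀ e ∈ S, (univ.filter fun i => e ∈ X i).card = 1) ∧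
      (∀ e, e ∉ S → e ∉ F → (univ.filter fun i => e ∈ X i).card = 2) ∧
      (∀ e, e ∉ S → Even (univ.filter fun i => e ∈ X i).card) := by
  classical
  obtain ⟨A, hA⟩ : ∃ A : Finset E, A = univ.filter fun e => p (a e) ≠ 0 := ⟨_, rfl⟩
  obtain ⟨B, hB⟩ : ∃ B : Finset E, B = univ.filter fun e => q (a e) ≠ 0 := ⟨_, rfl⟩
  have hAe : Ev G A := by rw [hA]; exact ev_of_hom G a ha p
  have hBe : Ev G B := by rw [hB]; exact ev_of_hom G a ha q
  have hAB0 : ∀ e, (e ∉ A ∧ e ∉ B) ↔ a e = 0 := by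
    intro e
    rw [hA, hB, mem_filter, mem_filter]
    simp only [mem_univ, true_and, not_not, ne_eq]
    constructor
    · rintro ⟨h1, h2⟩
      exact hpq _ h1 h2
    · intro h
      rw [h, map_zero, map_zero]
      exact ⟨rfl, rfl⟩
  have hSD := ev_symmDiff hS hD
  have hAB := ev_symmDiff hAe hBe
  have e1 := ev_symmDiff hSD hAe
  have e2 := ev_symmDiff hSD hBe
  have e3 := ev_symmDiff hSD hAB
  have hcard : ∀ e, (univ.filter fun i => e ∈ (![D, symmDiff (symmDiff S D) A,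
      symmDiff (symmDiff S D) B, symmDiff (symmDiff S D) (symmDiff A B)] : Fin 4 → Finset E) i).card =
      (if e ∈ D then 1 else 0) +
      (if (((e ∈ S ∧ ¬ e ∈ D) ∨ (e ∈ D ∧ ¬ e ∈ S)) ∧ ¬ e ∈ A) ∨
        (e ∈ A ∧ ¬ ((e ∈ S ∧ ¬ e ∈ D) ∨ (e ∈ D ∧ ¬ e ∈ S))) then 1 else 0) +
      (if (((e ∈ S ∧ ¬ e ∈ D) ∨ (e ∈ D ∧ ¬ e ∈ S)) ∧ ¬ e ∈ B) ∨
        (e ∈ B ∧ ¬ ((e ∈ S ∧ ¬ e ∈ D) ∨ (e ∈ D ∧ ¬ e ∈ S))) then 1 else 0) +
      (if (((e ∈ S ∧ ¬ e ∈ D) ∨ (e ∈ D ∧ ¬ e ∈ S)) ∧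
          ¬ ((e ∈ A ∧ ¬ e ∈ B) ∨ (e ∈ B ∧ ¬ e ∈ A))) ∨
        (((e ∈ A ∧ ¬ e ∈ B) ∨ (e ∈ B ∧ ¬ e ∈ A)) ∧
          ¬ ((e ∈ S ∧ ¬ e ∈ D) ∨ (e ∈ D ∧ ¬ e ∈ S))) then 1 else 0) := by
    intro e
    rw [card_filter, Fin.sum_univ_four]
    simp only [Matrix.cons_val, mem_symmDiff]
    by_cases k1 : e ∈ S <;> by_cases k2 : e ∈ A <;> by_cases k3 : e ∈ B <;>
      by_cases k4 : e ∈ D <;> simp [k1, k2, k3, k4]
  have hc : ∀ e, _ := fun e => four_count (e ∈ S) (e ∈ A) (e ∈ B) (e ∈ D)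
      (fun h => by rw [hAB0 e]; exact hDS e h)
  refine ⟨![D, symmDiff (symmDiff S D) A, symmDiff (symmDiff S D) B,
    symmDiff (symmDiff S D) (symmDiff A B)], ?_, ?_, ?_, ?_⟩
  · intro i
    fin_cases i
    · exact hD
    · exact e1
    · exact e2
    · exact e3
  · intro e he
    rw [hcard e]
    exact (hc e).1 he
  · intro e he hF
    rw [hcard e]
    refine (hc e).2.1 he ?_
    by_contra hcon
    rw [not_or] at hcon
    exact hF (hz e he ((hAB0 e).1 hcon))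
  · intro e he
    rw [hcard e]
    exact (hc e).2.2 he

/-- Four sets from flows on the bridges of `S`. -/
theorem four_of_flows (G : MGraph V E) (S F : Finset E)
    (hS : ∀ v, dg G S v = 0 ∨ dg G S v = 2)
    (h : ∀ v : V, ∃ A B : Finset E, Ev G A ∧ Ev G B ∧
      (∀ f, f ∉ S → (f ∈ A ∨ f ∈ B) → ∀ u ∈ G.ends f, Rch G (univ \ S) v u) ∧
      (∀ f, f ∉ S → f ∉ F → (∀ u ∈ G.ends f, Rch G (univ \ S) v u) → f ∈ A ∨ f ∈ B)) :
    ∃ X : Fin 4 → Finset E, (∀ i, Ev G (X i)) ∧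
      (∀ e ∈ S, (univ.filter fun i => e ∈ X i).card = 1) ∧
      (∀ e, e ∉ S → e ∉ F → (univ.filter fun i => e ∈ X i).card = 2) ∧
      (∀ e, e ∉ S → Even (univ.filter fun i => e ∈ X i).card) := by
  classical
  obtain ⟨K, _, _, _, _, h4, ⟨w, hw0, hw1, hwne⟩, p, q, hpq⟩ := exists_field
  let st : Setoid V := ⟨Rch G (univ \ S), ⟨fun _ => Relation.ReflTransGen.refl,
    fun hab => rch_symm G _ _ _ hab, fun hab hbc => hab.trans hbc⟩⟩
  have hrep : ∀ b : Quotient st, ∃ v, (Quotient.mk st v) = b := fun b => Quotient.exists_rep b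
  choose rep hrep using hrep
  choose A B hA hB h1 h2 using h
  have hcl : ∀ u v, Quotient.mk st u = Quotient.mk st v ↔ Rch G (univ \ S) u v := by
    intro u v
    exact Quotient.eq
  have hone : ∀ f, f ∉ S → ∀ u ∈ G.ends f, ∀ v ∈ G.ends f, Rch G (univ \ S) u v := by
    intro f hfS u hu v hv
    by_cases huv : u = v
    · rw [huv]
    · refine Relation.ReflTransGen.single ⟨f, mem_sdiff.2 ⟨mem_univ _, hfS⟩, ?_⟩
      exact (Sym2.mem_and_mem_iff huv).1 ⟨hu, hv⟩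
  obtain ⟨x, a, D, hx0, ha, haT, hD, hDS⟩ := scale (K := K) h4 w hw0 hw1 G S hS
    (Quotient.mk st) (fun u v huv => (hcl u v).1 huv)
    (fun b e => (if e ∈ A (rep b) then 1 else 0) + (if e ∈ B (rep b) then w else 0))
    (by
      intro b v
      have h3 := bd_ind (K := K) G _ 1 (hA (rep b)) v
      have h5 := bd_ind (K := K) G _ w (hB (rep b)) v
      have h7 : bd G (fun e => (if e ∈ A (rep b) then 1 else 0) +
          (if e ∈ B (rep b) then w else 0)) v =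
          bd G (fun e => if e ∈ A (rep b) then (1 : K) else 0) v +
          bd G (fun e => if e ∈ B (rep b) then w else 0) v := by
        unfold bd
        rw [← sum_add_distrib]
        refine sum_congr rfl fun e _ => ?_
        by_cases h6 : v ∈ G.ends e <;> simp [h6]
      rw [h7, h3, h5, add_zero])
    (by
      intro b e heS v hv hvb
      have h3 : ¬ (e ∈ A (rep b) ∨ e ∈ B (rep b)) := by
        intro h5
        apply hvb
        rw [← hrep b]
        exact (hcl _ _).2 (rch_symm G _ _ _ (h1 _ e heS h5 v hv))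
      rw [not_or] at h3
      rw [if_neg h3.1, if_neg h3.2, add_zero])
  have hSe : Ev G S := by
    intro v; rcases hS v with h | h <;> rw [h] <;> decide
  refine four G S D F hSe hD p q hpq a ha ?_ hDS
  intro e heS hae
  by_contra heF
  obtain ⟨u, v, _, hends⟩ := exists_ends G e
  have hu : u ∈ G.ends e := by rw [hends]; simp
  rw [haT e heS u hu] at hae
  have h3 : Rch G (univ \ S) (rep (Quotient.mk st u)) u := (hcl _ _).1 (hrep _)
  have h5 := h2 (rep (Quotient.mk st u)) e heS heF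
    (fun v hv => h3.trans (hone e heS u hu v hv))
  rcases mul_eq_zero.1 hae with h8 | h8
  · exact hx0 _ h8
  · by_cases h6 : e ∈ A (rep (Quotient.mk st u)) <;>
      by_cases h7 : e ∈ B (rep (Quotient.mk st u))
    · simp only [h6, h7, if_true] at h8
      exact hwne h8
    · simp [h6, h7] at h8
    · simp only [h6, h7, if_true, if_false, zero_add] at h8
      exact hw0 h8
    · tauto


/-- The main theorem: every circuit `C` of a graph in which every edge lies in an even set. -/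
theorem four_circuit (G : MGraph V E) (C : Finset E) (hC : IsCircuit G C)
    (hb : ∀ e, ∃ X, Ev G X ∧ e ∈ X) :
    ∃ F : Finset E, Ev G F ∧ (∀ e ∈ F, ∀ v ∈ G.ends e, dg G C v = 0) ∧
      ∃ X : Fin 4 → Finset E, (∀ i, Ev G (X i)) ∧
      (∀ e ∈ C, (univ.filter fun i => e ∈ X i).card = 1) ∧
      (∀ e, e ∉ C → e ∉ F → (univ.filter fun i => e ∈ X i).card = 2) ∧
      (∀ e, e ∉ C → Even (univ.filter fun i => e ∈ X i).card) := by
  classical
  have hends' : ∀ e, ∃ u v, u ≠ v ∧ G.ends e = s(u, v) := fun e => exists_ends G e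
  choose al be hab hends using hends'
  obtain ⟨e0, he0⟩ := hC.1
  have hp0m : al e0 ∈ G.ends e0 := by rw [hends e0]; simp
  obtain ⟨p0, hp0⟩ : ∃ p0, dg G C p0 = 2 := ⟨al e0, (hC.2.1 _).resolve_left (by
    have := dg_pos_of_mem (G := G) he0 hp0m; omega)⟩
  let κ : V → V := fun v => if dg G C v = 2 then p0 else v
  have hκ0 : κ p0 = p0 := by simp [κ]
  have hκ2 : ∀ v, dg G C v = 2 → κ v = p0 := fun v hv => by simp [κ, hv]
  have hκv : ∀ u v, dg G C v = 0 → (κ u = v ↔ u = v) := by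
    intro u v hv
    by_cases hu : dg G C u = 2
    · rw [hκ2 u hu]
      constructor
      · intro h; rw [h] at hp0; omega
      · intro h; rw [h] at hu; omega
    · simp only [κ, if_neg hu]
  -- no cut with one edge
  have hcut : ∀ X : Finset V, cn (fun e => κ (al e)) (fun e => κ (be e)) univ X ≠ 1 := by
    intro X h
    have h1 : cn (fun e => κ (al e)) (fun e => κ (be e)) univ X =
        cn al be univ (univ.filter (fun w => κ w ∈ X)) := by
      unfold cn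
      congr 1
      apply Finset.filter_congr
      intro e _
      simp
    rw [h1] at h
    unfold cn at h
    obtain ⟨e, he⟩ := Finset.card_eq_one.1 h
    obtain ⟨Y, hY, heY⟩ := hb e
    have h2 := ev_cut G al be hab hends Y hY (univ.filter (fun w => κ w ∈ X))
    have h3 : cn al be Y (univ.filter (fun w => κ w ∈ X)) = 1 := by
      unfold cn
      rw [Finset.card_eq_one]
      refine ⟨e, ?_⟩
      ext f
      have h4 : f ∈ univ.filter (fun e => ¬ (al e ∈ univ.filter (fun w => κ w ∈ X) ↔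
          be e ∈ univ.filter (fun w => κ w ∈ X))) ↔ f ∈ ({e} : Finset E) := by rw [he]
      rw [mem_filter] at h4 ⊢
      constructor
      · rintro ⟨_, h5⟩
        exact h4.1 ⟨mem_univ _, h5⟩
      · intro h5
        refine ⟨?_, (h4.2 h5).2⟩
        rw [mem_singleton.1 h5]
        exact heY
    rw [h3] at h2
    exact absurd h2 (by decide)
  obtain ⟨ψ, hnz, hfl, hz0⟩ := exists_flow8c _ (fun e => κ (al e)) (fun e => κ (be e)) p0 rfl hcut
  -- flow condition at the vertices off C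
  have hvert : ∀ (i : Fin 3) (v : V), dg G C v = 0 →
      ∑ e, (if v ∈ G.ends e then ψ i e else 0) = 0 := by
    intro i v hv
    have h1 := hfl i (fun u => if u = v then 1 else 0)
    refine Eq.trans ?_ h1
    refine sum_congr rfl fun e _ => ?_
    have hm : v ∈ G.ends e ↔ v = al e ∨ v = be e := by rw [hends e, Sym2.mem_iff]
    simp only [hκv _ v hv]
    by_cases h5 : v = al e
    · have h6 : ¬ be e = v := fun h => hab e (h5.symm.trans h.symm)
      rw [if_pos (hm.2 (Or.inl h5)), if_pos h5.symm, if_neg h6, add_zero, mul_one]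
    · by_cases h6 : v = be e
      · rw [if_pos (hm.2 (Or.inr h6)), if_neg (fun h => h5 h.symm), if_pos h6.symm, zero_add,
          mul_one]
      · rw [if_neg (fun h => (hm.1 h).elim h5 h6), if_neg (fun h => h5 h.symm),
          if_neg (fun h => h6 h.symm), add_zero, mul_zero]
  -- ψ 0 vanishes at all edges with an end on C
  have hon : ∀ e v, v ∈ G.ends e → dg G C v = 2 → ψ 0 e = 0 := by
    intro e v hv h2
    apply hz0 e
    rw [hends e, Sym2.mem_iff] at hv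
    rcases hv with h | h
    · left; rw [← h]; exact hκ2 v h2
    · right; rw [← h]; exact hκ2 v h2
  obtain ⟨F, hF⟩ : ∃ F : Finset E, ∀ e, e ∈ F ↔ ψ 0 e ≠ 0 :=
    ⟨univ.filter (fun e => ψ 0 e ≠ 0), by intro e; simp⟩
  have hFe : Ev G F := by
    intro v
    rcases hC.2.1 v with h | h
    · rw [Pool.Agent.Helper998.Near.even_iff_cast, dg_cast]
      refine Eq.trans ?_ (hvert 0 v h)
      refine sum_congr rfl fun e _ => ?_
      by_cases h2 : v ∈ G.ends e
      · rw [if_pos h2, if_pos h2]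
        rcases z2_cases (ψ 0 e) with h3 | h3
        · rw [if_neg (fun h4 => (hF e).1 h4 h3), h3]
        · rw [if_pos ((hF e).2 (by rw [h3]; decide)), h3]
      · rw [if_neg h2, if_neg h2]
    · have h1 : dg G F v = 0 := by
        unfold dg
        rw [card_eq_zero, filter_eq_empty_iff]
        intro e he hv
        exact (hF e).1 he (hon e v hv h)
      rw [h1]
      exact ⟨0, rfl⟩
  have hCF : ∀ e ∈ C, e ∉ F := by
    intro e he hf
    have hm : al e ∈ G.ends e := by rw [hends e]; simp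
    have h2 : dg G C (al e) = 2 := (hC.2.1 _).resolve_left (by
      have := dg_pos_of_mem (G := G) he hm; omega)
    exact (hF e).1 hf (hon e _ hm h2)
  have hone : ∀ f, f ∉ C → ∀ u ∈ G.ends f, ∀ v ∈ G.ends f, Rch G (univ \ C) u v := by
    intro f hfS u hu v hv
    by_cases huv : u = v
    · rw [huv]
    · refine Relation.ReflTransGen.single ⟨f, mem_sdiff.2 ⟨mem_univ _, hfS⟩, ?_⟩
      exact (Sym2.mem_and_mem_iff huv).1 ⟨hu, hv⟩
  have hnotC : ∀ v, dg G C v = 0 → ∀ e, v ∈ G.ends e → e ∉ C := by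
    intro v hv e he h
    have := dg_pos_of_mem (G := G) h he
    omega
  refine ⟨F, hFe, fun e he v hv => (hC.2.1 v).resolve_right fun h2 => (hF e).1 he (hon e v hv h2),
    four_of_flows G C F hC.2.1 (fun v0 => ?_)⟩
  -- the flows on the bridge of v0
  have hpart : ∀ i : Fin 3, ∃ A : Finset E, Ev G A ∧ ∀ f, f ∉ C →
      (f ∈ A ↔ ψ i f ≠ 0 ∧ ∀ u ∈ G.ends f, Rch G (univ \ C) v0 u) := by
    intro i
    obtain ⟨M, hM⟩ : ∃ M : Finset E, ∀ f, f ∈ M ↔ f ∉ C ∧ ψ i f ≠ 0 ∧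
        ∀ u ∈ G.ends f, Rch G (univ \ C) v0 u :=
      ⟨univ.filter (fun f => f ∉ C ∧ ψ i f ≠ 0 ∧ ∀ u ∈ G.ends f, Rch G (univ \ C) v0 u), by
        intro e; simp⟩
    obtain ⟨J, hJC, hJ⟩ := circ_complete G C M hC (by
      rw [disjoint_left]
      intro e he h
      exact ((hM e).1 h).1 he) (by
      intro v hv
      by_cases hr : Rch G (univ \ C) v0 v
      · rw [Pool.Agent.Helper998.Near.even_iff_cast, dg_cast]
        refine Eq.trans ?_ (hvert i v hv)
        refine sum_congr rfl fun e _ => ?_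
        by_cases h2 : v ∈ G.ends e
        · rw [if_pos h2, if_pos h2]
          have heC := hnotC v hv e h2
          rcases z2_cases (ψ i e) with h3 | h3
          · rw [if_neg (fun h4 => ((hM e).1 h4).2.1 h3), h3]
          · rw [if_pos, h3]
            rw [hM]
            refine ⟨heC, by rw [h3]; decide, fun u hu => hr.trans (hone e heC v h2 u hu)⟩
        · rw [if_neg h2, if_neg h2]
      · have h1 : dg G M v = 0 := by
          unfold dg
          rw [card_eq_zero, filter_eq_empty_iff]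
          intro e he hv'
          exact hr (((hM e).1 he).2.2 v hv')
        rw [h1]
        exact ⟨0, rfl⟩)
    refine ⟨M ∪ J, hJ, fun f hf => ?_⟩
    rw [mem_union, hM]
    constructor
    · rintro (h | h)
      · exact h.2
      · exact absurd (hJC h) hf
    · intro h
      exact Or.inl ⟨hf, h⟩
  obtain ⟨A, hA, hA'⟩ := hpart 1
  obtain ⟨B, hB, hB'⟩ := hpart 2
  refine ⟨A, B, hA, hB, ?_, ?_⟩
  · intro f hf h
    rcases h with h | h
    · exact ((hA' f hf).1 h).2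
    · exact ((hB' f hf).1 h).2
  · intro f hf hfF hr
    rcases hnz f with h | h | h
    · exact absurd ((hF f).2 h) hfF
    · exact Or.inl ((hA' f hf).2 ⟨h, hr⟩)
    · exact Or.inr ((hB' f hf).2 ⟨h, hr⟩)


end Pool.Agent.W614.SC
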