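import Pool.Agent.W614.SC.Four

set_option autoImplicit false
set_option linter.unusedSectionVars false

/-!
The choice between two modifications on `F`, and the circuit version.
-/

open Finset

namespace Pool.Agent.W614.SC

open Pool.Agent.Helper347.Sab
open Pool.Agent.W831.HI

variable {V E : Type} [Fintype V] [DecidableEq V] [Fintype E] [DecidableEq E]

theorem card4 (X : Fin 4 → Finset E) (e : E) :
    (univ.filter fun i => e ∈ X i).card = (if e ∈ X 0 then 1 else 0) + (if e ∈ X 1 then 1 else 0) +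
      (if e ∈ X 2 then 1 else 0) + (if e ∈ X 3 then 1 else 0) := by
  rw [card_filter, Fin.sum_univ_four]

theorem sd_off (A F : Finset E) (e : E) (he : e ∉ F) : (e ∈ symmDiff A F ↔ e ∈ A) := by
  rw [mem_symmDiff]; tauto

theorem sd_on (A F : Finset E) (e : E) (he : e ∈ F) : (e ∈ symmDiff A F ↔ e ∉ A) := by
  rw [mem_symmDiff]; tauto

theorem cand (G : MGraph V E) (C F : Finset E) (hF : Ev G F) (hFC : ∀ e ∈ F, e ∉ C)
    (X : Fin 4 → Finset E) (hX : ∀ i, Ev G (X i))
    (h1 : ∀ e ∈ C, (univ.filter fun i => e ∈ X i).card = 1)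
    (h2 : ∀ e, e ∉ C → e ∉ F → (univ.filter fun i => e ∈ X i).card = 2)
    (h3 : ∀ e, e ∉ C → Even (univ.filter fun i => e ∈ X i).card) :
    ∃ Y : Fin 4 → Finset E, (∀ i, Ev G (Y i)) ∧
      (∀ e ∈ C, (univ.filter fun i => e ∈ Y i).card = 1) ∧
      (∀ e, e ∉ C → e ∉ F → (univ.filter fun i => e ∈ Y i).card = 2) ∧
      (∀ e ∈ F, (univ.filter fun i => e ∈ Y i).card = 1 ∨
        (univ.filter fun i => e ∈ Y i).card = 3) ∧
      2 * (F.filter fun e => (univ.filter fun i => e ∈ Y i).card = 3).card ≤ F.card := by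
  obtain ⟨P, hP⟩ : ∃ P : Fin 4 → Finset E, P = ![symmDiff (X 0) F, X 1, X 2, X 3] := ⟨_, rfl⟩
  obtain ⟨Q, hQ⟩ : ∃ Q : Fin 4 → Finset E,
    Q = ![X 0, symmDiff (X 1) F, symmDiff (X 2) F, symmDiff (X 3) F] := ⟨_, rfl⟩
  have hPe : ∀ i, Ev G (P i) := by
    intro i
    rw [hP]
    fin_cases i
    · exact ev_symmDiff (hX 0) hF
    · exact hX 1
    · exact hX 2
    · exact hX 3
  have hQe : ∀ i, Ev G (Q i) := by
    intro i
    rw [hQ]
    fin_cases i
    · exact hX 0
    · exact ev_symmDiff (hX 1) hF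
    · exact ev_symmDiff (hX 2) hF
    · exact ev_symmDiff (hX 3) hF
  have hPo : ∀ e, e ∉ F → (univ.filter fun i => e ∈ P i).card =
      (univ.filter fun i => e ∈ X i).card := by
    intro e he
    rw [card4, card4, hP]
    simp only [Matrix.cons_val, sd_off _ _ _ he]
    by_cases a0 : e ∈ X 0 <;> by_cases a1 : e ∈ X 1 <;> by_cases a2 : e ∈ X 2 <;>
      by_cases a3 : e ∈ X 3 <;> simp [a0, a1, a2, a3]
  have hQo : ∀ e, e ∉ F → (univ.filter fun i => e ∈ Q i).card =
      (univ.filter fun i => e ∈ X i).card := by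
    intro e he
    rw [card4, card4, hQ]
    simp only [Matrix.cons_val, sd_off _ _ _ he]
    by_cases a0 : e ∈ X 0 <;> by_cases a1 : e ∈ X 1 <;> by_cases a2 : e ∈ X 2 <;>
      by_cases a3 : e ∈ X 3 <;> simp [a0, a1, a2, a3]
  have hPF : ∀ e ∈ F, (univ.filter fun i => e ∈ P i).card = 1 ∨
      (univ.filter fun i => e ∈ P i).card = 3 := by
    intro e he
    have h := h3 e (hFC e he)
    rw [card4] at h
    rw [card4, hP]
    simp only [Matrix.cons_val, sd_on _ _ _ he]
    revert h
    by_cases a0 : e ∈ X 0 <;> by_cases a1 : e ∈ X 1 <;> by_cases a2 : e ∈ X 2 <;>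
      by_cases a3 : e ∈ X 3 <;> simp [a0, a1, a2, a3] <;> decide
  have hPQ : ∀ e ∈ F, (univ.filter fun i => e ∈ P i).card +
      (univ.filter fun i => e ∈ Q i).card = 4 := by
    intro e he
    rw [card4, card4, hP, hQ]
    simp only [Matrix.cons_val, sd_on _ _ _ he]
    by_cases a0 : e ∈ X 0 <;> by_cases a1 : e ∈ X 1 <;> by_cases a2 : e ∈ X 2 <;>
      by_cases a3 : e ∈ X 3 <;> simp [a0, a1, a2, a3]
  have hsum : (F.filter fun e => (univ.filter fun i => e ∈ P i).card = 3).card +
      (F.filter fun e => (univ.filter fun i => e ∈ Q i).card = 3).card = F.card := by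
    rw [← card_filter_add_card_filter_not (s := F)
      (fun e => (univ.filter fun i => e ∈ P i).card = 3)]
    congr 1
    congr 1
    apply filter_congr
    intro e he
    have h4 := hPF e he
    have h5 := hPQ e he
    omega
  rcases Nat.lt_or_ge F.card
      (2 * (F.filter fun e => (univ.filter fun i => e ∈ P i).card = 3).card) with h | h
  · refine ⟨Q, hQe, fun e he => ?_, fun e he hf => ?_, fun e he => ?_, by omega⟩
    · rw [hQo e (fun hf => hFC e hf he)]
      exact h1 e he
    · rw [hQo e hf]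
      exact h2 e he hf
    · have h4 := hPF e he
      have h5 := hPQ e he
      omega
  · refine ⟨P, hPe, fun e he => ?_, fun e he hf => ?_, hPF, h⟩
    · rw [hPo e (fun hf => hFC e hf he)]
      exact h1 e he
    · rw [hPo e hf]
      exact h2 e he hf

theorem sum_dg (G : MGraph V E) (X : Finset E) : ∑ v, dg G X v = 2 * X.card := by
  unfold dg
  simp only [card_filter]
  rw [sum_comm]
  have h : ∀ e ∈ X, ∑ v, (if v ∈ G.ends e then 1 else 0) = 2 := by
    intro e _
    obtain ⟨u, v, huv, he⟩ := exists_ends G e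
    rw [← card_filter]
    have : (univ.filter fun x => x ∈ G.ends e) = {u, v} := by
      ext x
      rw [he, mem_filter, mem_insert, mem_singleton, Sym2.mem_iff]
      simp
    rw [this, card_pair huv]
  rw [sum_congr rfl h, sum_const, smul_eq_mul, mul_comm]

theorem cubic_bound (G : MGraph V E) (h3 : IsCubic G) (C F : Finset E) (hC : IsCircuit G C)
    (hF : Ev G F) (hFC : ∀ e ∈ F, ∀ v ∈ G.ends e, dg G C v = 0) :
    F.card + C.card ≤ Fintype.card V := by
  have h : ∀ v ∈ (univ : Finset V), dg G F v + dg G C v ≤ 2 := by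
    intro v _
    rcases hC.2.1 v with h0 | h2
    · have h4 : dg G F v ≤ 3 := by
        rw [← h3 v]
        exact dg_mono (subset_univ _) v
      obtain ⟨k, hk⟩ := hF v
      omega
    · have : dg G F v = 0 := by
        unfold dg
        rw [card_eq_zero, filter_eq_empty_iff]
        intro e he hv
        have := hFC e he v hv
        omega
      omega
  have h5 := sum_le_sum h
  rw [sum_add_distrib, sum_dg, sum_dg, sum_const, card_univ, smul_eq_mul] at h5
  omega

theorem main (G : MGraph V E) (hG : ∀ e, ∃ X, IsCircuit G X ∧ e ∈ X) (C : Finset E)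
    (hC : IsCircuit G C) :
    ∃ F : Fin 5 → Multiset (Finset E), (∀ i, ∀ X ∈ F i, IsCircuit G X) ∧
      (∀ i e, (F i).countP (e ∈ ·) ≤ 1) ∧
      (∀ X ∈ F 4, ∀ e ∈ X, ∀ v ∈ G.ends e, dg G C v = 0) ∧
      (∀ e, (C ::ₘ ∑ i, F i).countP (e ∈ ·) = 2 ∨
        ((C ::ₘ ∑ i, F i).countP (e ∈ ·) = 4 ∧ (F 4).countP (e ∈ ·) = 1)) ∧
      2 * (univ.filter fun e => (C ::ₘ ∑ i, F i).countP (e ∈ ·) = 4).card ≤
        (univ.filter fun e => (F 4).countP (e ∈ ·) = 1).card ∧
      (IsCubic G → 2 * (univ.filter fun e => (C ::ₘ ∑ i, F i).countP (e ∈ ·) = 4).card + C.card ≤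
        Fintype.card V) := by
  classical
  obtain ⟨F, hF, hFv, X, hX, h1, h2, h3⟩ := four_circuit G C hC (fun e => by
    obtain ⟨Y, hY, heY⟩ := hG e
    refine ⟨Y, fun v => ?_, heY⟩
    rcases hY.2.1 v with h | h <;> rw [h] <;> decide)
  have hFC : ∀ e ∈ F, e ∉ C := by
    intro e he hc
    obtain ⟨u, v, _, hends⟩ := exists_ends G e
    have hu : u ∈ G.ends e := by rw [hends]; simp
    have := dg_pos_of_mem (G := G) hc hu
    have := hFv e he u hu
    omega
  obtain ⟨Y, hY, k1, k2, k3, k4⟩ := cand G C F hF hFC X hX h1 h2 h3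
  obtain ⟨Z, hZ⟩ : ∃ Z : Fin 5 → Finset E, Z = ![Y 0, Y 1, Y 2, Y 3, F] := ⟨_, rfl⟩
  have hZe : ∀ i, Ev G (Z i) := by
    intro i
    rw [hZ]
    fin_cases i
    · exact hY 0
    · exact hY 1
    · exact hY 2
    · exact hY 3
    · exact hF
  choose T hT1 hT2 using fun i => decompose_ev G (Z i) (hZe i)
  have hZ4 : Z 4 = F := by rw [hZ]; rfl
  have hN : ∀ e, (C ::ₘ ∑ i, T i).countP (e ∈ ·) = (univ.filter fun i => e ∈ Y i).card +
      (if e ∈ F then 1 else 0) + (if e ∈ C then 1 else 0) := by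
    intro e
    rw [Multiset.countP_cons, countP_sum, card4]
    congr 1
    rw [sum_congr rfl fun i _ => hT2 i e, Fin.sum_univ_five, hZ]
    simp only [Matrix.cons_val]
    by_cases a0 : e ∈ Y 0 <;> by_cases a1 : e ∈ Y 1 <;> by_cases a2 : e ∈ Y 2 <;>
      by_cases a3 : e ∈ Y 3 <;> by_cases a4 : e ∈ F <;> simp [a0, a1, a2, a3, a4]
  have hF4 : ∀ e, (T 4).countP (e ∈ ·) = if e ∈ F then 1 else 0 := by
    intro e
    rw [hT2 4 e, hZ4]
  have hfour : ∀ e, (C ::ₘ ∑ i, T i).countP (e ∈ ·) = 4 ↔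
      (e ∈ F ∧ (univ.filter fun i => e ∈ Y i).card = 3) := by
    intro e
    rw [hN e]
    by_cases hc : e ∈ C
    · have hf : e ∉ F := fun h => hFC e h hc
      rw [k1 e hc, if_neg hf, if_pos hc]
      simp [hf]
    · by_cases hf : e ∈ F
      · rw [if_pos hf, if_neg hc]
        constructor
        · intro h; exact ⟨hf, by omega⟩
        · rintro ⟨_, h⟩; omega
      · rw [k2 e hc hf, if_neg hf, if_neg hc]
        simp [hf]
  have hset : (univ.filter fun e => (C ::ₘ ∑ i, T i).countP (e ∈ ·) = 4) =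
      F.filter fun e => (univ.filter fun i => e ∈ Y i).card = 3 := by
    ext e
    rw [mem_filter, mem_filter, hfour e]
    simp
  have hset4 : (univ.filter fun e => (T 4).countP (e ∈ ·) = 1) = F := by
    ext e
    rw [mem_filter, hF4 e]
    by_cases h : e ∈ F <;> simp [h]
  refine ⟨T, hT1, ?_, ?_, ?_, ?_, ?_⟩
  · intro i e
    rw [hT2]
    split_ifs <;> omega
  · intro X hX4 e heX v hv
    refine hFv e ?_ v hv
    have : 0 < (T 4).countP (e ∈ ·) := Multiset.countP_pos.2 ⟨X, hX4, heX⟩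
    rw [hF4 e] at this
    by_contra hf
    rw [if_neg hf] at this
    omega
  · intro e
    by_cases hc : e ∈ C
    · left
      have hf : e ∉ F := fun h => hFC e h hc
      rw [hN e, k1 e hc, if_neg hf, if_pos hc]
    · by_cases hf : e ∈ F
      · rcases k3 e hf with h | h
        · left
          rw [hN e, h, if_pos hf, if_neg hc]
        · right
          rw [hN e, h, if_pos hf, if_neg hc, hF4 e, if_pos hf]
          exact ⟨rfl, rfl⟩
      · left
        rw [hN e, k2 e hc hf, if_neg hf, if_neg hc]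
  · rw [hset, hset4]
    exact k4
  · intro hcub
    rw [hset]
    have := cubic_bound G hcub C F hC hF hFv
    omega

end Pool.Agent.W614.SC
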